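import Pool.Agent.Lib.UFin.Thm

/-!
# A model of ZFC + GCH with a uniformizable ladder system on a stationarily often reflecting set

Let `κ` be inaccessible with a normal fine `κ`-complete ultrafilter on `P_κ(W)`, where `W` has cardinality
`λ⁺⁺` for `λ = κ^{+ω}` (for instance, let `κ` be supercompact), and assume GCH. We construct a model `(M, E)` of
ZFC + GCH with a singular cardinal `l` of cofinality `w = ω`, its successor `L`, a stationary subset `S` of `L`
which reflects stationarily often, and a ladder system `A` on `S` with the uniformization property.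

Definitions: `mu`, `NormalFine` in `Lib/UlM/Defs.lean`; `IsZFC` in `Lib/BVM/ZFCDef.lean`; `IsGCH`, `IsOmega`, `IsCard`,
`Cofin`, `IsSucc`, `IsStat`, `IsRefl`, `IsLadder`, `IsUnif` in `Lib/UlB/Mdl.lean`.
-/

set_option autoImplicit false
universe u

namespace Pool.Agent.Results.MP_b292c0_lc.UniformizableReflecting

open Cardinal Pool.Agent.UlM Pool.Agent.UlB Pool.Agent.Lib.BVM

theorem result (κ : Cardinal.{u}) (hκ : κ.IsInaccessible)
    (hG : ∀ c : Cardinal.{u}, ℵ₀ ≤ c → (2 : Cardinal.{u}) ^ c = Order.succ c)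
    (W : Type u) (hW : #W = Order.succ (Order.succ (mu κ)))
    (U : Ultrafilter (Set W)) (hU : NormalFine κ W U) :
    ∃ (M : Type (u + 1)) (E : M → M → Prop), IsZFC E ∧ IsGCH E ∧ ∃ w l L S A : M,
      IsOmega E w ∧ (IsCard E l ∧ E w l ∧ Cofin E w l) ∧ IsSucc E l L ∧ (∀ a, E a S → E a L) ∧
      IsStat E S L ∧ IsRefl E w S L ∧ IsLadder E w S A ∧ IsUnif E S A :=
  Pool.Agent.UFin.con hκ hG hW hU

end Pool.Agent.Results.MP_b292c0_lc.UniformizableReflecting
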